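import Pool.Agent.Helper19.Un.Stmts

set_option autoImplicit false

/-!
# Module DIFF : smoothness and measurability of the action
-/

namespace Pool.Agent.Helper19.Un

open MeasureTheory Topology
open scoped ComplexConjugate

variable {m : ℕ}

theorem diff_vec : ContDiff ℝ 2 (vec : Pt m → V m) := by
  unfold vec
  exact contDiff_fst.prodMk (contDiff_snd.prodMk contDiff_const)

theorem diff_gvec (g : V m ≃ₗ[ℂ] V m) : ContDiff ℝ 2 (fun p : Pt m => g (vec p)) := by
  have h1 : ContDiff ℝ 2 (fun x : V m => g x) :=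
    (LinearMap.toContinuousLinearMap (g.toLinearMap.restrictScalars ℝ)).contDiff
  exact h1.comp diff_vec

theorem diff_gvec_meas (g : V m ≃ₗ[ℂ] V m) : Measurable (fun p : Pt m => g (vec p)) :=
  (diff_gvec g).continuous.measurable

theorem st_CD : ST_CD := by
  intro m g hg
  have h := diff_gvec g
  have h1 : ContDiffOn ℝ 2 (fun p : Pt m => (g (vec p)).1) (SD m) :=
    (contDiff_fst.comp h).contDiffOn
  have h2 : ContDiffOn ℝ 2 (fun p : Pt m => (g (vec p)).2.1) (SD m) :=
    (contDiff_fst.comp (contDiff_snd.comp h)).contDiffOn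
  have h3 : ContDiffOn ℝ 2 (fun p : Pt m => (g (vec p)).2.2) (SD m) :=
    (contDiff_snd.comp (contDiff_snd.comp h)).contDiffOn
  have h4 : ContDiffOn ℝ 2 (fun p : Pt m => ((g (vec p)).2.2)⁻¹) (SD m) :=
    h3.inv fun p hp => x3_ne hg hp
  have h5 : ContDiffOn ℝ 2 (fun p : Pt m => (g (vec p)).1 * ((g (vec p)).2.2)⁻¹) (SD m) :=
    h1.mul h4
  have h6 : ContDiffOn ℝ 2 (fun p : Pt m => ((g (vec p)).2.2)⁻¹ • (g (vec p)).2.1) (SD m) :=
    h4.smul h2
  refine (h5.prodMk h6).congr fun p _ => ?_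
  unfold act pnt
  rw [div_eq_mul_inv, one_div]

theorem st_ME : ST_ME := by
  intro m g
  have h := diff_gvec_meas g
  have h1 : Measurable (fun p : Pt m => (g (vec p)).1) := h.fst
  have h2 : Measurable (fun p : Pt m => (g (vec p)).2.1) := h.snd.fst
  have h3 : Measurable (fun p : Pt m => (g (vec p)).2.2) := h.snd.snd
  have h4 : Measurable (fun p : Pt m => 1 / (g (vec p)).2.2) := measurable_const.div h3
  unfold act pnt
  exact (h1.div h3).prodMk (h4.smul h2)

end Pool.Agent.Helper19.Un
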